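import Pool.Agent.Work.MP_fe3720_an.V.VConv
import Pool.Agent.Work.MP_fe3720_an.B.MainS

/-! # Module MainV: Stein manifolds with the volume density property -/

namespace Pool.Agent.MP_fe3720.VV

open Topology RR BB Filter

section General

variable {X : Type} [MetricSpace X] {O : Subalgebra ℂ (X → ℂ)} {m N : ℕ} {G : Fin N → O}

theorem nonvanishing_of_lt (hS : SD0 m O G) (hm : 1 ≤ m) (hLT : RR.LT O) (x : X) :
    ∃ w : Derivation ℂ O O, IsCompleteVF w ∧ ∃ g : O, (w g) x ≠ 0 := by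
  obtain ⟨q, κ, V, hc, hVp, hκ⟩ := hS.charts x
  obtain ⟨E, hE1, hE2⟩ := exists_fields hS hc hVp
  rw [hκ] at hE2
  obtain ⟨r, W, hW, h1⟩ := hLT ∅ oconv_empty x (Set.notMem_empty x) (E ⟨0, hm⟩) (hE1 _)
    {q ⟨0, hm⟩} 1 one_pos
  have h2 := (h1 _ (Finset.mem_singleton_self _)).1
  rw [hE2, if_pos rfl] at h2
  by_contra hcon
  push Not at hcon
  have h3 : ∑ i, (W i (q ⟨0, hm⟩)) x = 0 := Finset.sum_eq_zero fun i _ => hcon (W i) (hW i) _
  rw [h3, sub_zero, norm_one] at h2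
  exact lt_irrefl _ h2

end General

variable {N d : ℕ} {Z : Set (Fin N → ℂ)}

/-- approximate transitivity and (RR4) imply that `Z` is an RR-space, in both readings -/
theorem mainLT (hZ : IsSteinSubmanifold N d Z) (hconn : IsConnected Z)
    (h4 : DensityRR.RR4 (hol Z)) (hLT : RR.LT (hol Z)) :
    DensityRR.IsRR (hol Z) ∧ DensityRR.IsRRPos (hol Z) := by
  obtain ⟨v, hv, hv0, f, hfc, hvf⟩ := h4
  have hcl := isClosed_of_submanifold hZ
  have : ProperSpace Z := ProperSpace.of_isClosed hcl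
  have : PreconnectedSpace Z := Subtype.preconnectedSpace hconn.isPreconnected
  have hS0 := sd0_hol hZ
  have hvf' : (show Derivation ℂ (hol Z) (hol Z) from v) f = 0 := Subtype.ext hvf
  have hm : 2 ≤ d := dim_two hS0 (v := v) hv.1 hv0 hvf' hfc
  have hS : SD d (hol Z) (coord Z) := ⟨hS0, ends_of hS0 (immersive_hol hZ) hm⟩
  have hRR := isRR_of_lt hS hLT (v := v) hv hv0 hvf' hfc
  rw [DensityRR.rr_iff, rrp_bridge]
  exact ⟨hRR, (rrp_iff hS0).mpr ⟨hRR, fun x => nonvanishing_of_lt hS0 (by omega) hLT x⟩⟩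

theorem mainV (hZ : IsSteinSubmanifold N d Z) (hconn : IsConnected Z)
    (h4 : DensityRR.RR4 (hol Z)) {δ : DensityRR.Der (hol Z) → hol Z}
    (hδ : DensityRR.IsDivergence δ) (hV : DensityRR.VolumeDensity δ) :
    DensityRR.IsRR (hol Z) ∧ DensityRR.IsRRPos (hol Z) ∧
      (DensityRR.DensityProperty (hol Z) ↔ ∃ w : DensityRR.Der (hol Z),
        DensityRR.IsCompleteVF w ∧ ∃ x y, (δ w).1 x ≠ (δ w).1 y) := by
  have hcl := isClosed_of_submanifold hZ
  have : ProperSpace Z := ProperSpace.of_isClosed hcl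
  have : PreconnectedSpace Z := Subtype.preconnectedSpace hconn.isPreconnected
  have hS0 := sd0_hol hZ
  have hm : 2 ≤ d := by
    obtain ⟨v, hv, hv0, f, hfc, hvf⟩ := h4
    have hvf' : (show Derivation ℂ (hol Z) (hol Z) from v) f = 0 := Subtype.ext hvf
    exact dim_two hS0 (v := v) hv.1 hv0 hvf' hfc
  have hS : SD d (hol Z) (coord Z) := ⟨hS0, ends_of hS0 (immersive_hol hZ) hm⟩
  have hdv := dv_of hδ
  have hvd : VDP (O := hol Z) (fun D => δ D) := (vdp_iff δ).mp hV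
  have hLT : RR.LT (hol Z) := lt_of_at hS0 (at_of_vdp hS0 hm hdv hvd)
  obtain ⟨h1, h2⟩ := mainLT hZ hconn h4 hLT
  refine ⟨h1, h2, ?_⟩
  rw [DensityRR.density_iff]
  constructor
  · intro hDP
    have : Nonempty Z := hconn.nonempty.to_subtype
    obtain ⟨W, hW, x, y, hxy⟩ := exists_nonconst hS0 (by omega) hdv hDP
    exact ⟨W, hW, x, y, hxy⟩
  · rintro ⟨W, hW, x, y, hxy⟩
    exact density_of_div hS hm (gelK_hol hZ) hdv hvd (W := W) (mem_clLie_of_complete hW)
      ⟨x, y, hxy⟩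

end Pool.Agent.MP_fe3720.VV
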