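import Pool.Agent.Work.MP_fe3720_an.V.VDiv
import Pool.Agent.Work.MP_fe3720_an.R.Val

/-! # The volume density property implies approximate transitivity -/

namespace Pool.Agent.MP_fe3720.VV

open Topology RR Filter

variable {X : Type} [MetricSpace X] {O : Subalgebra ℂ (X → ℂ)} {m N : ℕ} {G : Fin N → O}

theorem Dv.sum {δ : Derivation ℂ O O → O} (h : Dv δ) {ι : Type} (s : Finset ι) (c : ι → ℂ)
    (D : ι → Derivation ℂ O O) (hD : ∀ i, IsVF (D i)) (h0 : ∀ i, δ (D i) = 0) :
    IsVF (∑ i ∈ s, c i • D i) ∧ δ (∑ i ∈ s, c i • D i) = 0 := by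
  classical
  induction s using Finset.induction with
  | empty => exact ⟨isVF_zero, h.zero⟩
  | insert i s hi ih =>
    rw [Finset.sum_insert hi]
    exact ⟨((hD i).csmul _).add ih.1, by rw [h.add _ _ ((hD i).csmul _) ih.1,
      h.csmul _ (hD i), h0, ih.2, smul_zero, add_zero]⟩

/-- the value of a field at a point in terms of the coordinates -/
theorem value_at {q : Fin m → O} {κ : (Fin m → ℂ) → X} {V : Set (Fin m → ℂ)}
    (hc : IsChart O q κ V) {p : X} (hV : (fun j => (q j) p) ∈ V) (hκ : κ (fun j => (q j) p) = p)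
    {E : Fin m → Derivation ℂ O O} (hE1 : ∀ j, IsVF (E j))
    (hE2 : ∀ j l, (E j (q l)) p = if j = l then 1 else 0) {D : Derivation ℂ O O} (hD : IsVF D)
    (f : O) : (D f) p = ∑ j, (D (q j)) p * (E j f) p := by
  have h1 : ∀ D' : Derivation ℂ O O, IsVF D' → (D' f) p =
      fderiv ℂ (fun y => f (κ y)) (fun j => (q j) p) (fun j => (D' (q j)) p) := by
    intro D' hD'
    have h2 := hc.tan D' hD' f _ hV
    rwa [hκ] at h2
  have h3 : ∀ j, (E j f) p = fderiv ℂ (fun y => f (κ y)) (fun j => (q j) p) (Pi.single j 1) := by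
    intro j
    rw [h1 _ (hE1 j)]
    congr 1
    funext l
    rw [hE2, Pi.single_apply]
    simp only [eq_comm]
  rw [h1 D hD]
  have h4 : (fun j => (D (q j)) p) = ∑ j, (D (q j)) p • (Pi.single j (1 : ℂ) : Fin m → ℂ) := by
    funext l
    rw [Finset.sum_apply]
    simp [Pi.single_apply]
  rw [h4, map_sum]
  refine Finset.sum_congr rfl fun j _ => ?_
  rw [map_smul, smul_eq_mul, h3]

theorem at_of_vdp (hS : SD0 m O G) (hm : 2 ≤ m) {δ : Derivation ℂ O O → O}
    (h : Dv δ) (hV : VDP δ) : AT O := by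
  intro C hC p hp D hD S ε hε
  have hO := hS.alg
  obtain ⟨q, κ, V, hc, hVp, hκ⟩ := hS.charts p
  obtain ⟨E, hE1, hE2⟩ := exists_fields hS hc hVp
  rw [hκ] at hE2
  obtain ⟨g, hg1, hg2⟩ := hC.2 p hp
  obtain ⟨ρ, hρ0, hρ1, hρ⟩ := bound_lt_one hO hC.1 hg1
  have hnt : Nontrivial (Fin m) := Fin.nontrivial_iff_two_le.mpr hm
  choose oth hoth using fun j : Fin m => exists_ne j
  set u : Fin m → O := fun l => q l - algebraMap ℂ O ((q l) p) with hu
  have hup : ∀ l, (u l) p = 0 := fun l => sub_self _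
  have hEu : ∀ (F : Derivation ℂ O O) l, F (u l) = F (q l) := by
    intro F l
    rw [hu]
    show F (q l - algebraMap ℂ O ((q l) p)) = _
    rw [map_sub, Derivation.map_algebraMap, sub_zero]
  set w : ℕ → Fin m → Derivation ℂ O O := fun n j =>
    curl δ ((g ^ (n + 1) * u (oth j)) • E (oth j)) (E j) with hw
  have hwvf : ∀ n j, IsVF (w n j) := fun n j =>
    curl_vf hO.cont δ ((hE1 _).fsmul hO.cont _) (hE1 _)
  have hwdiv : ∀ n j, δ (w n j) = 0 := fun n j =>
    curl_div hO.cont h ((hE1 _).fsmul hO.cont _) (hE1 _)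
  set c : Fin m → ℂ := fun j => (D (q j)) p with hcc
  set P : Fin m → O → O := fun j f =>
    u (oth j) * (E (oth j) g * E j f - E j g * E (oth j) f) with hP
  set Q : Fin m → O → O := fun j f =>
    g * (u (oth j) * curl δ (E (oth j)) (E j) f + E (oth j) (u (oth j)) * E j f -
      E j (u (oth j)) * E (oth j) f) with hQ
  have hwf : ∀ n j f, w n j f = g ^ n * (((n : O) + 1) * P j f + Q j f) := by
    intro n j f
    have h1 : ∀ F : Derivation ℂ O O, F (g ^ (n + 1) * u (oth j)) =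
        g ^ n * (((n : O) + 1) * (u (oth j) * F g) + g * F (u (oth j))) := by
      intro F
      rw [Derivation.leibniz, Derivation.leibniz_pow]
      simp only [smul_eq_mul, nsmul_eq_mul, Nat.add_sub_cancel]
      push_cast
      ring
    show curl δ ((g ^ (n + 1) * u (oth j)) • E (oth j)) (E j) f = _
    rw [curl_smul h (hE1 _), h1, h1]
    simp only [hP, hQ]
    ring
  -- the sum
  obtain ⟨T, hT⟩ : ∃ T : ℕ → Derivation ℂ O O, ∀ n, T n = ∑ j, c j • w n j := ⟨_, fun _ => rfl⟩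
  have hTd : ∀ n, IsVF (T n) ∧ δ (T n) = 0 := fun n => by
    rw [hT]
    exact h.sum _ _ _ (hwvf n) (hwdiv n)
  have hTf : ∀ n f x, (T n f) x = g x ^ n * (((n : ℂ) + 1) * ∑ j, c j * (P j f) x +
      ∑ j, c j * (Q j f) x) := by
    intro n f x
    have h1 : (T n f) x = ∑ j, c j * (w n j f) x := by
      rw [hT, der_sum_apply']
      rfl
    rw [h1, Finset.mul_sum, ← Finset.sum_add_distrib, Finset.mul_sum]
    refine Finset.sum_congr rfl fun j _ => ?_
    rw [hwf]
    show c j * (g x ^ n * ((((n : O) + 1 : O) x) * (P j f) x + (Q j f) x)) = _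
    have h2 : ((n : O) + 1 : O) x = (n : ℂ) + 1 := by
      show ((n : O) : X → ℂ) x + 1 = _
      simp
    rw [h2]
    ring
  -- at `p`
  have hTp : ∀ n f, (T n f) p = (D f) p := by
    intro n f
    rw [value_at hc hVp hκ hE1 hE2 hD f, hTf, hg2, one_pow, one_mul]
    have h1 : ∑ j, c j * (P j f) p = 0 := by
      refine Finset.sum_eq_zero fun j _ => ?_
      have : (P j f) p = (u (oth j)) p * (E (oth j) g * E j f - E j g * E (oth j) f : O) p := rfl
      rw [this, hup, zero_mul, mul_zero]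
    rw [h1, mul_zero, zero_add]
    refine Finset.sum_congr rfl fun j _ => ?_
    have h2 : (Q j f) p = g p * ((u (oth j)) p * (curl δ (E (oth j)) (E j) f) p +
        (E (oth j) (u (oth j))) p * (E j f) p - (E j (u (oth j))) p * (E (oth j) f) p) := rfl
    rw [h2, hup, hEu, hEu, hE2, hE2, if_pos rfl, if_neg (hoth j).symm, hg2]
    ring
  -- on `C`
  have hb : ∀ f : O, ∃ B, 0 ≤ B ∧ ∀ x ∈ C, ‖∑ j, c j * (P j f) x‖ ≤ B ∧
      ‖∑ j, c j * (Q j f) x‖ ≤ B := by
    intro f
    obtain ⟨B1, hB1⟩ := hC.1.exists_bound_of_continuousOn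
      (f := fun x => ∑ j, c j * (P j f) x)
      (continuous_finsetSum _ fun j _ => continuous_const.mul (cont hS (P j f))).continuousOn
    obtain ⟨B2, hB2⟩ := hC.1.exists_bound_of_continuousOn
      (f := fun x => ∑ j, c j * (Q j f) x)
      (continuous_finsetSum _ fun j _ => continuous_const.mul (cont hS (Q j f))).continuousOn
    exact ⟨max |B1| |B2|, le_max_of_le_left (abs_nonneg _), fun x hx =>
      ⟨((hB1 x hx).trans (le_abs_self _)).trans (le_max_left _ _),
        ((hB2 x hx).trans (le_abs_self _)).trans (le_max_right _ _)⟩⟩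
  choose B hB0 hB using hb
  set B0 : ℝ := ∑ f ∈ S, B f with hB0'
  have hBle : ∀ f ∈ S, B f ≤ B0 := fun f hf =>
    Finset.single_le_sum (f := fun f => B f) (fun f _ => hB0 f) hf
  have hB00 : 0 ≤ B0 := Finset.sum_nonneg fun f _ => hB0 f
  obtain ⟨n, hn⟩ : ∃ n : ℕ, ρ ^ n * (((n : ℝ) + 1) * B0 + B0) < ε / 2 := by
    have t1 := tendsto_self_mul_const_pow_of_lt_one hρ0 hρ1
    have t2 := tendsto_pow_atTop_nhds_zero_of_lt_one hρ0 hρ1
    have t3 : Tendsto (fun n : ℕ => ((n : ℝ) * ρ ^ n + 2 * ρ ^ n) * B0) atTop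
        (𝓝 ((0 + 2 * 0) * B0)) := (t1.add (t2.const_mul 2)).mul_const B0
    have t4 : ((0 : ℝ) + 2 * 0) * B0 < ε / 2 := by
      rw [mul_zero, add_zero, zero_mul]
      positivity
    obtain ⟨n, hn⟩ := (t3.eventually_lt_const t4).exists
    refine ⟨n, lt_of_eq_of_lt ?_ hn⟩
    ring
  have hTC : ∀ f ∈ S, ∀ x ∈ C, ‖(T n f) x‖ < ε / 2 := by
    intro f hf x hx
    refine lt_of_le_of_lt ?_ hn
    rw [hTf, norm_mul, norm_pow]
    obtain ⟨b1, b2⟩ := hB f x hx
    have b3 := hBle f hf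
    have b4 : ‖((n : ℂ) + 1)‖ = (n : ℝ) + 1 := by
      have : ((n : ℂ) + 1) = ((n + 1 : ℕ) : ℂ) := by push_cast; ring
      rw [this, Complex.norm_natCast]
      push_cast
      ring
    have b5 : ‖((n : ℂ) + 1) * ∑ j, c j * (P j f) x + ∑ j, c j * (Q j f) x‖ ≤
        ((n : ℝ) + 1) * B0 + B0 := by
      refine (norm_add_le _ _).trans ?_
      rw [norm_mul, b4]
      have b6 := b1.trans b3
      have b7 := b2.trans b3
      gcongr
    have b8 : ‖g x‖ ^ n ≤ ρ ^ n := pow_le_pow_left₀ (norm_nonneg _) (hρ x hx) n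
    exact mul_le_mul b8 b5 (norm_nonneg _) (pow_nonneg hρ0 n)
  obtain ⟨U, hU, h1⟩ := hV (T n) (hTd n).1 (hTd n).2 S _ (hC.1.insert p) (ε / 2) (by positivity)
  refine ⟨U, LieSubalgebra.lieSpan_mono (fun W hW => hW.1) hU, fun f hf => ⟨?_, fun x hx => ?_⟩⟩
  · have a1 := h1 f hf p (Set.mem_insert _ _)
    rw [hTp] at a1
    linarith
  · have a1 := h1 f hf x (Set.mem_insert_of_mem _ hx)
    have a2 := hTC f hf x hx
    have a3 : (U f) x = (T n f) x - ((T n f) x - (U f) x) := by ring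
    rw [a3]
    have := norm_sub_le ((T n f) x) ((T n f) x - (U f) x)
    linarith

end Pool.Agent.MP_fe3720.VV
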