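import Pool.Agent.Work.MP_fe3720_an.V.VFin

/-! # If all complete fields have constant divergence then there is no density property -/

namespace Pool.Agent.MP_fe3720.VV

open Topology RR BB Filter

variable {X : Type} [MetricSpace X] [ProperSpace X] [PreconnectedSpace X] {O : Subalgebra ℂ (X → ℂ)} {m N : ℕ} {G : Fin N → O}

/-- the divergence at a point is continuous -/
theorem div_cont (hS : SD0 m O G) {δ : Derivation ℂ O O → O} (h : Dv δ) (p : X) {ε : ℝ}
    (hε : 0 < ε) : ∃ (S : Finset O) (K : Set X) (η : ℝ), IsCompact K ∧ 0 < η ∧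
      ∀ R : Derivation ℂ O O, IsVF R → (∀ f ∈ S, ∀ x ∈ K, ‖(R f) x‖ < η) → ‖(δ R) p‖ < ε := by
  classical
  have hO := hS.alg
  obtain ⟨q, κ, V, hc, hVp, hκ⟩ := hS.charts p
  obtain ⟨E, hE1, hE2⟩ := exists_fields hS hc hVp
  rw [hκ] at hE2
  set M : Matrix (Fin m) (Fin m) O := Matrix.of fun i j => E i (q j) with hM
  set Δ : O := M.det with hΔ
  have hΔ1 : Δ p = 1 := by
    have h1 : Δ p = (Matrix.of fun i j => (E i (q j)) p).det := det_mem E q p
    have h2 : (Matrix.of fun i j => (E i (q j)) p) = (1 : Matrix (Fin m) (Fin m) ℂ) := by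
      ext i j
      rw [Matrix.of_apply, hE2, Matrix.one_apply]
    rw [h1, h2, Matrix.det_one]
  set a : Fin m → Fin m → O := fun i j => Δ * M.adjugate j i with ha
  set b : Fin m → Fin m → ℂ := fun i j => (a i j) p * (δ (E i)) p + (E i (a i j)) p with hb
  -- the formula
  have key : ∀ R : Derivation ℂ O O, IsVF R → (δ R) p =
      ∑ i, ∑ j, ((R (q j)) p * b i j + (a i j) p * (E i (R (q j))) p) - (R (Δ * Δ)) p := by
    intro R hR
    have h1 : (Δ * Δ) • R = ∑ i, (Δ * ∑ j, R (q j) * M.adjugate j i) • E i :=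
      cramer_exp hS hR E hE1 q
    have h2 : ∀ i, Δ * ∑ j, R (q j) * M.adjugate j i = ∑ j, R (q j) * a i j := by
      intro i
      rw [Finset.mul_sum]
      refine Finset.sum_congr rfl fun j _ => ?_
      simp only [ha]
      ring
    simp only [h2] at h1
    have h3 : ∀ (s : Finset (Fin m)) (C : Fin m → O), IsVF (∑ i ∈ s, C i • E i) ∧
        δ (∑ i ∈ s, C i • E i) = ∑ i ∈ s, (C i * δ (E i) + E i (C i)) := by
      intro s C
      induction s using Finset.induction with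
      | empty => exact ⟨isVF_zero, h.zero⟩
      | insert i s hi ih =>
        rw [Finset.sum_insert hi, Finset.sum_insert hi]
        exact ⟨((hE1 i).fsmul hO.cont _).add ih.1, by
          rw [h.add _ _ ((hE1 i).fsmul hO.cont _) ih.1, h.fmul _ _ (hE1 i), ih.2]⟩
    have h4 : Δ * Δ * δ R + R (Δ * Δ) =
        ∑ i, ((∑ j, R (q j) * a i j) * δ (E i) + E i (∑ j, R (q j) * a i j)) := by
      rw [← h.fmul _ _ hR, h1, (h3 _ _).2]
    have h5 := congrArg (fun F : O => F p) h4
    have ev : ∀ (s : Finset (Fin m)) (F : Fin m → O), (∑ i ∈ s, F i : O) p = ∑ i ∈ s, (F i) p := by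
      intro s F
      induction s using Finset.induction with
      | empty => rfl
      | insert i s hi ih =>
        rw [Finset.sum_insert hi, Finset.sum_insert hi, ← ih]
        rfl
    have h6 : (Δ * Δ * δ R + R (Δ * Δ) : O) p = (δ R) p + (R (Δ * Δ)) p := by
      show Δ p * Δ p * (δ R) p + (R (Δ * Δ)) p = _
      rw [hΔ1]
      ring
    have h7 : (∑ i, ((∑ j, R (q j) * a i j) * δ (E i) + E i (∑ j, R (q j) * a i j)) : O) p =
        ∑ i, ∑ j, ((R (q j)) p * b i j + (a i j) p * (E i (R (q j))) p) := by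
      rw [ev]
      refine Finset.sum_congr rfl fun i _ => ?_
      have h8 : ((∑ j, R (q j) * a i j) * δ (E i) + E i (∑ j, R (q j) * a i j) : O) p =
          (∑ j, R (q j) * a i j : O) p * (δ (E i)) p + (E i (∑ j, R (q j) * a i j)) p := rfl
      rw [h8, map_sum, ev, ev, Finset.sum_mul, ← Finset.sum_add_distrib]
      refine Finset.sum_congr rfl fun j _ => ?_
      rw [Derivation.leibniz]
      show (R (q j)) p * (a i j) p * (δ (E i)) p +
        ((R (q j)) p * (E i (a i j)) p + (a i j) p * (E i (R (q j))) p) = _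
      simp only [hb]
      ring
    have h9 : (δ R) p + (R (Δ * Δ)) p =
        ∑ i, ∑ j, ((R (q j)) p * b i j + (a i j) p * (E i (R (q j))) p) := by
      rw [← h6, ← h7]
      exact h5
    linear_combination h9
  -- the constants
  set B : ℝ := 1 + ∑ i, ∑ j, (‖b i j‖ + ‖(a i j) p‖) with hB
  have hB1 : 1 ≤ B := by
    have : 0 ≤ ∑ i, ∑ j, (‖b i j‖ + ‖(a i j) p‖) :=
      Finset.sum_nonneg fun i _ => Finset.sum_nonneg fun j _ => by positivity
    linarith
  set ε1 : ℝ := ε / (2 * B) with hε1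
  have hε10 : 0 < ε1 := by positivity
  choose K hK d hd hKd using fun i => hE1 i {p} isCompact_singleton ε1 hε10
  set η : ℝ := min ε1 (1 + ∑ i, (d i)⁻¹)⁻¹ with hη
  have hsum0 : 0 ≤ ∑ i, (d i)⁻¹ := Finset.sum_nonneg fun i _ => (inv_pos.mpr (hd i)).le
  have hη0 : 0 < η := lt_min hε10 (inv_pos.mpr (by linarith))
  have hηd : ∀ i, η ≤ d i := by
    intro i
    refine (min_le_right _ _).trans ?_
    rw [inv_le_comm₀ (by linarith) (hd i)]
    have := Finset.single_le_sum (f := fun i => (d i)⁻¹) (fun i _ => (inv_pos.mpr (hd i)).le)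
      (Finset.mem_univ i)
    linarith
  refine ⟨insert (Δ * Δ) (Finset.univ.image q), insert p (⋃ i, K i), η,
    (isCompact_iUnion hK).insert p, hη0, fun R hR hsmall => ?_⟩
  have s1 : ∀ j, ‖(R (q j)) p‖ ≤ ε1 := fun j =>
    ((hsmall (q j) (Finset.mem_insert_of_mem (Finset.mem_image_of_mem _ (Finset.mem_univ _))) p
      (Set.mem_insert _ _)).le).trans (min_le_left _ _)
  have s2 : ∀ i j, ‖(E i (R (q j))) p‖ ≤ ε1 := by
    intro i j
    refine (hKd i (R (q j)) (fun x hx => ?_) p rfl).le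
    refine lt_of_lt_of_le (hsmall (q j) (Finset.mem_insert_of_mem
      (Finset.mem_image_of_mem _ (Finset.mem_univ _))) x
      (Set.mem_insert_of_mem _ (Set.mem_iUnion.mpr ⟨i, hx⟩))) (hηd i)
  have s3 : ‖(R (Δ * Δ)) p‖ ≤ ε1 :=
    ((hsmall _ (Finset.mem_insert_self _ _) p (Set.mem_insert _ _)).le).trans (min_le_left _ _)
  rw [key R hR]
  have s4 : ‖∑ i, ∑ j, ((R (q j)) p * b i j + (a i j) p * (E i (R (q j))) p)‖ ≤
      ∑ i, ∑ j, (ε1 * (‖b i j‖ + ‖(a i j) p‖)) := by
    refine (norm_sum_le _ _).trans (Finset.sum_le_sum fun i _ => ?_)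
    refine (norm_sum_le _ _).trans (Finset.sum_le_sum fun j _ => ?_)
    refine (norm_add_le _ _).trans ?_
    rw [norm_mul, norm_mul]
    have e1 := mul_le_mul_of_nonneg_right (s1 j) (norm_nonneg (b i j))
    have e2 := mul_le_mul_of_nonneg_left (s2 i j) (norm_nonneg ((a i j) p))
    calc ‖(R (q j)) p‖ * ‖b i j‖ + ‖(a i j) p‖ * ‖(E i (R (q j))) p‖ ≤
        ε1 * ‖b i j‖ + ‖(a i j) p‖ * ε1 := add_le_add e1 e2
      _ = ε1 * (‖b i j‖ + ‖(a i j) p‖) := by ring
  have s5 : ∑ i, ∑ j, (ε1 * (‖b i j‖ + ‖(a i j) p‖)) = ε1 * (B - 1) := by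
    rw [hB, add_sub_cancel_left, Finset.mul_sum]
    refine Finset.sum_congr rfl fun i _ => ?_
    rw [Finset.mul_sum]
  have s6 := norm_sub_le (∑ i, ∑ j, ((R (q j)) p * b i j + (a i j) p * (E i (R (q j))) p))
    ((R (Δ * Δ)) p)
  have s7 : ε1 * B = ε / 2 := by
    rw [hε1]
    field_simp
  nlinarith

/-- constant divergence passes to the generated Lie algebra -/
theorem lie_const {δ : Derivation ℂ O O → O} (h : Dv δ)
    (hW : ∀ W : Derivation ℂ O O, IsCompleteVF W → ∃ c : ℂ, δ W = algebraMap ℂ O c)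
    {U : Derivation ℂ O O} (hU : U ∈ completeLie O) : ∃ c : ℂ, δ U = algebraMap ℂ O c := by
  let L : LieSubalgebra ℂ (Derivation ℂ O O) :=
    { carrier := {U | IsVF U ∧ ∃ c : ℂ, δ U = algebraMap ℂ O c}
      add_mem' := by
        rintro D E ⟨hD, c, hc⟩ ⟨hE, c', hc'⟩
        exact ⟨hD.add hE, c + c', by rw [h.add _ _ hD hE, hc, hc', map_add]⟩
      zero_mem' := ⟨isVF_zero, 0, by rw [h.zero, map_zero]⟩
      smul_mem' := by
        rintro a D ⟨hD, c, hc⟩
        refine ⟨hD.csmul a, a * c, ?_⟩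
        rw [h.csmul a hD, hc, map_mul, Algebra.smul_def]
      lie_mem' := by
        rintro D E ⟨hD, c, hc⟩ ⟨hE, c', hc'⟩
        refine ⟨hD.lie hE, 0, ?_⟩
        rw [h.lie _ _ hD hE, hc, hc', Derivation.map_algebraMap, Derivation.map_algebraMap,
          sub_zero, map_zero] }
  have hL : completeLie O ≤ L := LieSubalgebra.lieSpan_le.mpr fun U hU => ⟨hU.1, hW U hU⟩
  exact (hL hU).2

theorem exists_nonconst (hS : SD0 m O G) (hm : 1 ≤ m) {δ : Derivation ℂ O O → O}
    (h : Dv δ) (hDP : DensityProperty O) [Nonempty X] :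
    ∃ W : Derivation ℂ O O, IsCompleteVF W ∧ ∃ x y, (δ W) x ≠ (δ W) y := by
  by_contra hcon
  push Not at hcon
  have hO := hS.alg
  obtain ⟨x₀⟩ := ‹Nonempty X›
  have hconst : ∀ F : O, (∀ x y, F x = F y) → ∃ c : ℂ, F = algebraMap ℂ O c := fun F hF =>
    ⟨F x₀, Subtype.ext (funext fun x => hF x x₀)⟩
  have hW : ∀ W : Derivation ℂ O O, IsCompleteVF W → ∃ c : ℂ, δ W = algebraMap ℂ O c :=
    fun W hW => hconst _ (hcon W hW)
  -- all divergences are constant
  have hall : ∀ D : Derivation ℂ O O, IsVF D → ∃ c : ℂ, δ D = algebraMap ℂ O c := by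
    intro D hD
    refine hconst _ fun x y => ?_
    refine eq_of_forall_dist_le fun ε hε => ?_
    obtain ⟨S1, K1, η1, hK1, hη1, h1⟩ := div_cont hS h x (half_pos hε)
    obtain ⟨S2, K2, η2, hK2, hη2, h2⟩ := div_cont hS h y (half_pos hε)
    classical
    obtain ⟨U, hU, h3⟩ := hDP D hD (S1 ∪ S2) (K1 ∪ K2) (hK1.union hK2) (min η1 η2)
      (lt_min hη1 hη2)
    obtain ⟨c, hc⟩ := lie_const h hW hU
    have hUv := isVF_of_mem_completeLie hU
    have h4 := h1 (D - U) (IsVF.sub' hD hUv) (fun f hf z hz =>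
      (h3 f (Finset.mem_union_left _ hf) z (Or.inl hz)).trans_le (min_le_left _ _))
    have h5 := h2 (D - U) (IsVF.sub' hD hUv) (fun f hf z hz =>
      (h3 f (Finset.mem_union_right _ hf) z (Or.inr hz)).trans_le (min_le_right _ _))
    rw [h.sub hD hUv, hc] at h4 h5
    have h6 : ‖(δ D) x - c‖ < ε / 2 := h4
    have h7 : ‖(δ D) y - c‖ < ε / 2 := h5
    rw [dist_eq_norm]
    have h8 : (δ D) x - (δ D) y = ((δ D) x - c) - ((δ D) y - c) := by ring
    rw [h8]
    have := norm_sub_le ((δ D) x - c) ((δ D) y - c)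
    linarith
  -- a contradiction
  obtain ⟨q, κ, V, hc, hVp, hκ⟩ := hS.charts x₀
  obtain ⟨E, hE1, hE2⟩ := exists_fields hS hc hVp
  rw [hκ] at hE2
  set D := E ⟨0, hm⟩ with hD
  set w := q ⟨0, hm⟩ with hw
  have hDv : IsVF D := hE1 _
  have hDw : (D w) x₀ = 1 := by
    have := hE2 ⟨0, hm⟩ ⟨0, hm⟩
    rwa [if_pos rfl] at this
  obtain ⟨c, hc0⟩ := hall D hDv
  obtain ⟨k1, hk1⟩ := hall (w • D) (hDv.fsmul hO.cont w)
  obtain ⟨k2, hk2⟩ := hall ((w * w) • D) (hDv.fsmul hO.cont _)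
  rw [h.fmul _ _ hDv, hc0] at hk1 hk2
  rw [Derivation.leibniz] at hk2
  simp only [smul_eq_mul] at hk2
  -- `D w = k1 - c w`
  have e1 : D w = algebraMap ℂ O k1 - w * algebraMap ℂ O c := by
    rw [← hk1]
    ring
  have e2 : w * w * algebraMap ℂ O c + (w * D w + w * D w) = algebraMap ℂ O k2 := hk2
  have e3 := congrArg D e2
  rw [Derivation.map_algebraMap] at e3
  have e4 : D (D w) = -(D w * algebraMap ℂ O c) := by
    conv_lhs => rw [e1]
    rw [map_sub, Derivation.map_algebraMap, Derivation.leibniz, Derivation.map_algebraMap]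
    simp only [smul_eq_mul]
    ring
  rw [map_add, map_add, Derivation.leibniz, Derivation.leibniz, Derivation.leibniz,
    Derivation.map_algebraMap] at e3
  simp only [smul_eq_mul, e4] at e3
  have e5 := congrArg (fun F : O => F x₀) e3
  have e6 : (D w) x₀ * (2 * (D w) x₀) = 0 := by
    have e7 : w x₀ * w x₀ * 0 + c * (w x₀ * (D w) x₀ + w x₀ * (D w) x₀) +
        ((w x₀ * -((D w) x₀ * c) + (D w) x₀ * (D w) x₀) +
        (w x₀ * -((D w) x₀ * c) + (D w) x₀ * (D w) x₀)) = 0 := e5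
    linear_combination e7
  rw [hDw] at e6
  norm_num at e6

end Pool.Agent.MP_fe3720.VV
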