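import Pool.Agent.Work.MP_fe3720_an.R.LT
import Pool.Agent.Work.MP_fe3720_an.PubV

/-! # Divergences -/

namespace Pool.Agent.MP_fe3720.VV

open Topology RR

variable {X : Type} [TopologicalSpace X] {O : Subalgebra ℂ (X → ℂ)}

/-- a divergence -/
structure Dv (δ : Derivation ℂ O O → O) : Prop where
  add : ∀ D E : Derivation ℂ O O, IsVF D → IsVF E → δ (D + E) = δ D + δ E
  fmul : ∀ (u : O) (D : Derivation ℂ O O), IsVF D → δ (u • D) = u * δ D + D u
  lie : ∀ D E : Derivation ℂ O O, IsVF D → IsVF E → δ ⁅D, E⁆ = D (δ E) - E (δ D)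

/-- the volume density property -/
def VDP (δ : Derivation ℂ O O → O) : Prop :=
  ∀ D : Derivation ℂ O O, IsVF D → δ D = 0 → ∀ (S : Finset O) (K : Set X), IsCompact K →
    ∀ ε > 0, ∃ U ∈ LieSubalgebra.lieSpan ℂ (Derivation ℂ O O) {W | IsCompleteVF W ∧ δ W = 0},
      ∀ f ∈ S, ∀ x ∈ K, ‖(D f) x - (U f) x‖ < ε

theorem vdp_iff (δ : DensityRR.Der O → O) :
    DensityRR.VolumeDensity δ ↔ VDP (O := O) (fun D => δ D) := Iff.rfl

theorem dv_of {δ : DensityRR.Der O → O} (h : DensityRR.IsDivergence δ) :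
    Dv (O := O) (fun D => δ D) where
  add := h.add
  fmul := fun u D hD => Subtype.ext (h.fmul u D hD)
  lie := fun D E hD hE => Subtype.ext (h.lie D E hD hE)

theorem neg_eq (D : Derivation ℂ O O) : -D = (-1 : ℂ) • D := by
  apply Derivation.ext
  intro f
  rw [Derivation.neg_apply, Derivation.smul_apply, neg_one_smul]

theorem sub_eq (D E : Derivation ℂ O O) : D - E = D + (-1 : ℂ) • E := by
  apply Derivation.ext
  intro f
  rw [Derivation.sub_apply, Derivation.add_apply, Derivation.smul_apply, neg_one_smul,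
    sub_eq_add_neg]

namespace Dv

variable {δ : Derivation ℂ O O → O} (h : Dv δ)

include h

theorem zero : δ 0 = 0 := by
  have h1 := h.fmul 0 0 isVF_zero
  rw [zero_smul, zero_mul, map_zero, add_zero] at h1
  exact h1

theorem csmul (c : ℂ) {D : Derivation ℂ O O} (hD : IsVF D) : δ (c • D) = c • δ D := by
  have h1 := h.fmul (algebraMap ℂ O c) D hD
  rw [D.map_algebraMap, add_zero] at h1
  have h2 : (algebraMap ℂ O c) • D = c • D := by
    apply Derivation.ext
    intro f
    rw [Derivation.smul_apply, Derivation.smul_apply, algebraMap_smul]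
  rw [h2] at h1
  rw [h1, Algebra.smul_def]

theorem neg {D : Derivation ℂ O O} (hD : IsVF D) : δ (-D) = -δ D := by
  rw [neg_eq, h.csmul (-1) hD, neg_one_smul]

theorem sub {D E : Derivation ℂ O O} (hD : IsVF D) (hE : IsVF E) : δ (D - E) = δ D - δ E := by
  rw [sub_eq, h.add _ _ hD (hE.csmul (-1)), h.csmul (-1) hE, neg_one_smul, sub_eq_add_neg]

end Dv

theorem IsVF.sub' {D E : Derivation ℂ O O} (hD : IsVF D) (hE : IsVF E) : IsVF (D - E) := by
  rw [sub_eq]
  exact hD.add (hE.csmul (-1))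

/-- the field of divergence zero given by a bivector -/
noncomputable def curl (δ : Derivation ℂ O O → O) (A B : Derivation ℂ O O) : Derivation ℂ O O :=
  ⁅A, B⁆ + δ A • B - δ B • A

theorem curl_vf (hc : ∀ f ∈ O, Continuous f) (δ : Derivation ℂ O O → O) {A B : Derivation ℂ O O}
    (hA : IsVF A) (hB : IsVF B) : IsVF (curl δ A B) :=
  IsVF.sub' ((hA.lie hB).add (hB.fsmul hc _)) (hA.fsmul hc _)

theorem curl_div (hc : ∀ f ∈ O, Continuous f) {δ : Derivation ℂ O O → O} (h : Dv δ)
    {A B : Derivation ℂ O O} (hA : IsVF A) (hB : IsVF B) : δ (curl δ A B) = 0 := by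
  rw [curl, h.sub ((hA.lie hB).add (hB.fsmul hc _)) (hA.fsmul hc _),
    h.add _ _ (hA.lie hB) (hB.fsmul hc _), h.lie _ _ hA hB, h.fmul _ _ hB, h.fmul _ _ hA]
  ring

theorem curl_apply (δ : Derivation ℂ O O → O) (A B : Derivation ℂ O O) (f : O) :
    curl δ A B f = A (B f) - B (A f) + δ A * B f - δ B * A f := by
  rw [curl, Derivation.sub_apply, Derivation.add_apply, Derivation.commutator_apply]
  rfl

theorem curl_smul {δ : Derivation ℂ O O → O} (h : Dv δ)
    {A B : Derivation ℂ O O} (hA : IsVF A) (u f : O) :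
    curl δ (u • A) B f = u * curl δ A B f + A u * B f - B u * A f := by
  rw [curl_apply, curl_apply, h.fmul _ _ hA]
  simp only [Derivation.smul_apply, smul_eq_mul, Derivation.leibniz]
  ring

end Pool.Agent.MP_fe3720.VV
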