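import Pool.Agent.Work.MP_fe3720_an.V.VMod

/-! # Density of a module without common zeros -/

namespace Pool.Agent.MP_fe3720.VV

open Topology RR BB Filter

variable {X : Type} [MetricSpace X] [ProperSpace X] [PreconnectedSpace X] {O : Subalgebra ℂ (X → ℂ)} {m N : ℕ}
  {G : Fin N → O}

/-- `E` multiplies `D` into the limits of the Lie algebra on `K` -/
private def GoodJ (K : Set X) (D : Derivation ℂ O O) : Set (X → ℂ) :=
  {E | E ∈ ClK K (Set.univ : Set O) ∧ ∀ (H : O) (S' : Finset O), ∀ ε > 0, ∃ U ∈ clLie O,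
    ∀ g ∈ S', ∀ x ∈ K, ‖E x * H x * (D g) x - (U g) x‖ < ε}

theorem mem_clLie_J (hS : SD0 m O G) (hG : GelK O G)
    (hJ : ∀ x : X, ∃ (u : Fin m → Derivation ℂ O O) (q : Fin m → O), (∀ i, u i ∈ Jm O) ∧
      ∀ i j, (u i (q j)) x = if i = j then 1 else 0) {D : Derivation ℂ O O} (hD : IsVF D) :
    D ∈ clLie O := by
  classical
  have hO := hS.alg
  refine ⟨hD, fun S K₀ hK₀ ε hε => ?_⟩
  obtain ⟨r, hr0, hr⟩ := exists_KK hS hK₀
  have hsub : K₀ ⊆ KK G r := (hr r le_rfl).trans interior_subset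
  have hK : IsCompact (KK G r) := isCompact_KK hS r
  have hB : ∀ g : O, ∃ B, ∀ x ∈ KK G r, ‖(D g) x‖ ≤ B := fun g =>
    hK.exists_bound_of_continuousOn (cont hS (D g)).continuousOn
  choose B hB using hB
  set B0 : ℝ := ∑ g ∈ S, |B g| with hB0
  have hB00 : 0 ≤ B0 := Finset.sum_nonneg fun f _ => abs_nonneg _
  have hBle : ∀ f ∈ S, B f ≤ B0 := fun f hf =>
    (le_abs_self _).trans (Finset.single_le_sum (f := fun f => |B f|) (fun _ _ => abs_nonneg _) hf)
  obtain ⟨E, hE, hE1⟩ := hG r (GoodJ (KK G r) D) (fun e he => he.1) (by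
    rintro e ⟨he1, he2⟩ e' ⟨he1', he2'⟩
    refine ⟨clK_add (A := (⊤ : Submodule ℂ O)) he1 he1', fun H S' ε hε => ?_⟩
    obtain ⟨U, hU, h1⟩ := he2 H S' (ε / 2) (by positivity)
    obtain ⟨U', hU', h2⟩ := he2' H S' (ε / 2) (by positivity)
    refine ⟨U + U', clLie_add hU hU', fun g hg x hx => ?_⟩
    have h3 := h1 g hg x hx
    have h4 := h2 g hg x hx
    have h5 : (e + e') x * H x * (D g) x - ((U + U') g) x =
        (e x * H x * (D g) x - (U g) x) + (e' x * H x * (D g) x - (U' g) x) := by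
      show (e x + e' x) * H x * (D g) x - ((U g) x + (U' g) x) = _
      ring
    rw [h5]
    refine (norm_add_le _ _).trans_lt ?_
    linarith) (by
    rintro e ⟨he1, he2⟩ h
    refine ⟨clK_mul hO hK (A := ⊤) (clK_of_mem (a := h) trivial) he1, fun H S' ε hε => ?_⟩
    obtain ⟨U, hU, h1⟩ := he2 (h * H) S' ε hε
    refine ⟨U, hU, fun g hg x hx => ?_⟩
    have h5 : (h.1 * e) x * H x * (D g) x - (U g) x =
        e x * (h * H : O) x * (D g) x - (U g) x := by
      show h x * e x * H x * (D g) x - (U g) x = e x * (h x * H x) * (D g) x - (U g) x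
      ring
    rw [h5]
    exact h1 g hg x hx) (by
    refine ⟨clK_of_mem (a := 0) trivial, fun H S' ε hε => ⟨0, clLie_zero, fun g hg x hx => ?_⟩⟩
    have h5 : (0 : X → ℂ) x * H x * (D g) x - ((0 : Derivation ℂ O O) g) x = 0 := by
      show (0 : ℂ) * H x * (D g) x - 0 = 0
      ring
    rw [h5, norm_zero]
    exact hε) (fun x _ => by
    obtain ⟨u, q, hu, huq⟩ := hJ x
    obtain ⟨c, hc⟩ := cramer_id hS hD u (fun i => (jm_mem (hu i)).1) q
    set Δ : O := (Matrix.of fun i j => u i (q j)).det with hΔ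
    have hΔx : Δ x = (Matrix.of fun i j => (u i (q j)) x).det := det_mem u q x
    have hΔx1 : Δ x = 1 := by
      rw [hΔx]
      have : (Matrix.of fun i j => (u i (q j)) x) = (1 : Matrix (Fin m) (Fin m) ℂ) := by
        ext i j
        rw [Matrix.of_apply, huq, Matrix.one_apply]
      rw [this, Matrix.det_one]
    refine ⟨(Δ * Δ : O), ⟨clK_of_mem (a := Δ * Δ) trivial, fun H S' ε hε =>
      ⟨H • ((Δ * Δ) • D), ?_, fun g hg y hy => ?_⟩⟩, ?_⟩
    · rw [hc]
      exact (jm_sum _ _ fun i _ => jm_smul (hu i) _) H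
    · have h1 : (Δ * Δ : O) y * H y * (D g) y - ((H • ((Δ * Δ) • D) : Derivation ℂ O O) g) y =
          0 := by
        show Δ y * Δ y * H y * (D g) y - H y * (Δ y * Δ y * (D g) y) = 0
        ring
      rw [h1, norm_zero]
      exact hε
    · show Δ x * Δ x ≠ 0
      rw [hΔx1, one_mul]
      exact one_ne_zero) (ε / 3 / (B0 + 1)) (by positivity)
  obtain ⟨U, hU, h1⟩ := hE.2 1 S (ε / 3) (by positivity)
  obtain ⟨U', hU', h2⟩ := hU.2 S (KK G r) hK (ε / 3) (by positivity)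
  refine ⟨U', hU', fun g hg x hx => ?_⟩
  have hxK := hsub hx
  have h3 := h1 g hg x hxK
  have h4 := h2 g hg x hxK
  have h5 := hE1 x hxK
  have h6 := (hB g x hxK).trans (hBle g hg)
  have h7 : (D g) x - (U' g) x = (1 - E x) * (D g) x +
      ((E x * (1 : O) x * (D g) x - (U g) x) + ((U g) x - (U' g) x)) := by
    have : (1 : O) x = 1 := rfl
    rw [this]
    ring
  rw [h7]
  have h8 : ‖(1 - E x) * (D g) x‖ ≤ ε / 3 := by
    rw [norm_mul]
    calc ‖1 - E x‖ * ‖(D g) x‖ ≤ (ε / 3 / (B0 + 1)) * B0 := by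
          gcongr
      _ ≤ (ε / 3 / (B0 + 1)) * (B0 + 1) := by
          gcongr
          linarith
      _ = ε / 3 := by field_simp
  have h9 := norm_add_le ((1 - E x) * (D g) x)
    ((E x * (1 : O) x * (D g) x - (U g) x) + ((U g) x - (U' g) x))
  have h10 := norm_add_le (E x * (1 : O) x * (D g) x - (U g) x) ((U g) x - (U' g) x)
  linarith

/-- a complete field with nonconstant divergence gives a nonzero element of the module -/
theorem exists_jm (hS : SD0 m O G) (hm : 2 ≤ m) {δ : Derivation ℂ O O → O} (h : Dv δ)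
    (hV : VDP δ) {W : Derivation ℂ O O} (hW : W ∈ clLie O)
    (hWd : ∃ x y, (δ W) x ≠ (δ W) y) : ∃ D ∈ Jm O, ∃ (x : X) (f : O), (D f) x ≠ 0 := by
  obtain ⟨A, hA, hA1⟩ : ∃ A : Derivation ℂ O O, IsVF A ∧ A (δ W) ≠ 0 := by
    by_contra hcon
    push Not at hcon
    obtain ⟨x, y, hxy⟩ := hWd
    exact hxy (lg_const hS hcon x y)
  obtain ⟨x, hx⟩ : ∃ x, (A (δ W)) x ≠ 0 := by
    by_contra hcon
    push Not at hcon
    exact hA1 (Subtype.ext (funext hcon))
  obtain ⟨q, κ, V, hc, hVp, hκ⟩ := hS.charts x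
  obtain ⟨E, hE1, hE2⟩ := exists_fields hS hc hVp
  rw [hκ] at hE2
  obtain ⟨j, hj⟩ : ∃ j, (E j (δ W)) x ≠ 0 := by
    by_contra hcon
    push Not at hcon
    refine hx ?_
    rw [value_at hc hVp hκ hE1 hE2 hA (δ W)]
    exact Finset.sum_eq_zero fun j _ => by rw [hcon, mul_zero]
  have hnt : Nontrivial (Fin m) := Fin.nontrivial_iff_two_le.mpr hm
  obtain ⟨l, hl⟩ := exists_ne j
  refine ⟨_, jm_of_div hS h hV hW (hE1 j) (hE1 l), x, q l, ?_⟩
  show (E l (δ W)) x * (E j (q l)) x - (E j (δ W)) x * (E l (q l)) x ≠ 0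
  rw [hE2, hE2, if_neg hl.symm, if_pos rfl, mul_zero, zero_sub, mul_one]
  exact neg_ne_zero.mpr hj

theorem density_of_div (hS : SD m O G) (hm : 2 ≤ m) (hG : GelK O G)
    {δ : Derivation ℂ O O → O} (h : Dv δ) (hV : VDP δ) {W : Derivation ℂ O O} (hW : W ∈ clLie O)
    (hWd : ∃ x y, (δ W) x ≠ (δ W) y) : DensityProperty O := by
  have hS0 := hS.toSD0
  have hLT : RR.LT O := lt_of_at hS0 (at_of_vdp hS0 hm h hV)
  obtain ⟨D, hD, x, f, hx⟩ := exists_jm hS0 hm h hV hW hWd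
  refine densityProperty_of fun D' hD' => mem_clLie_J hS0 hG (fun y => ?_) hD'
  obtain ⟨ψ, hψ, -⟩ := moveM hS hLT oconv_empty (k := 1) (fun _ => x) (fun _ => y)
    (fun i j _ => Subsingleton.elim i j) (fun i j _ => Subsingleton.elim i j)
    (fun _ => Set.notMem_empty x) (fun _ => Set.notMem_empty y) one_pos
  refine jm_basis hS0 h hV (jm_push ψ hD) (f₀ := ψ.symm.pull f) ?_
  rw [← hψ 0, HolAut.push_apply, HolAut.pull_pull_symm]
  exact hx

end Pool.Agent.MP_fe3720.VV
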