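import Pool.Agent.Work.MP_fe3720_an.V.VAT
import Pool.Agent.Work.MP_fe3720_an.R.Move
import Pool.Agent.Work.MP_fe3720_an.R.Large
import Pool.Agent.Work.MP_fe3720_an.B.FinalB

/-! # The volume density property and a complete field with nonconstant divergence imply the
density property -/

namespace Pool.Agent.MP_fe3720.VV

open Topology RR BB Filter

variable {X : Type} [MetricSpace X] {O : Subalgebra ℂ (X → ℂ)} {m N : ℕ} {G : Fin N → O}

/-- the largest module in the closed Lie algebra -/
def Jm (O : Subalgebra ℂ (X → ℂ)) : Set (Derivation ℂ O O) :=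
  {D | ∀ u : O, u • D ∈ clLie O}

theorem jm_mem {D : Derivation ℂ O O} (h : D ∈ Jm O) : D ∈ clLie O := by
  have := h 1
  rwa [one_smul] at this

theorem jm_smul {D : Derivation ℂ O O} (h : D ∈ Jm O) (u : O) : u • D ∈ Jm O := by
  intro u'
  rw [smul_smul]
  exact h _

theorem jm_add {D E : Derivation ℂ O O} (hD : D ∈ Jm O) (hE : E ∈ Jm O) : D + E ∈ Jm O := by
  intro u
  rw [smul_add]
  exact clLie_add (hD u) (hE u)

theorem jm_csmul {D : Derivation ℂ O O} (hD : D ∈ Jm O) (c : ℂ) : c • D ∈ Jm O := by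
  intro u
  rw [smul_comm]
  exact clLie_csmul (hD u) c

theorem jm_zero : (0 : Derivation ℂ O O) ∈ Jm O := by
  intro u
  rw [smul_zero]
  exact clLie_zero

theorem jm_sub {D E : Derivation ℂ O O} (hD : D ∈ Jm O) (hE : E ∈ Jm O) : D - E ∈ Jm O := by
  rw [sub_eq]
  exact jm_add hD (jm_csmul hE _)

theorem jm_sum {ι : Type} (s : Finset ι) (D : ι → Derivation ℂ O O) (h : ∀ i ∈ s, D i ∈ Jm O) :
    ∑ i ∈ s, D i ∈ Jm O := by
  classical
  induction s using Finset.induction with
  | empty => exact jm_zero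
  | insert i s hi ih =>
    rw [Finset.sum_insert hi]
    exact jm_add (h i (Finset.mem_insert_self i s))
      (ih fun j hj => h j (Finset.mem_insert_of_mem hj))

theorem jm_lie {W D : Derivation ℂ O O} (hW : W ∈ clLie O) (hD : D ∈ Jm O) : ⁅D, W⁆ ∈ Jm O := by
  intro u
  have h1 : u • ⁅D, W⁆ = ⁅u • D, W⁆ + W u • D := by
    apply Derivation.ext
    intro f
    rw [Derivation.add_apply, Derivation.smul_apply, Derivation.commutator_apply,
      Derivation.commutator_apply, Derivation.smul_apply, Derivation.smul_apply,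
      Derivation.smul_apply]
    simp only [smul_eq_mul, Derivation.leibniz]
    ring
  rw [h1]
  exact clLie_add (clLie_lie (hD u) hW) (hD _)

theorem jm_push (φ : HolAut O) {D : Derivation ℂ O O} (hD : D ∈ Jm O) : φ.push D ∈ Jm O := by
  intro u
  have h1 : u • φ.push D = φ.push (φ.pull u • D) := by
    rw [HolAut.push_smul, HolAut.pull_symm_pull]
  rw [h1]
  exact HolAut.push_clLie φ (hD _)

variable {δ : Derivation ℂ O O → O}

/-- fields of divergence zero are in the closed Lie algebra -/
theorem div_zero_mem (hV : VDP δ) {D : Derivation ℂ O O} (hD : IsVF D) (h0 : δ D = 0) :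
    D ∈ clLie O := by
  refine ⟨hD, fun S K hK ε hε => ?_⟩
  obtain ⟨U, hU, h1⟩ := hV D hD h0 S K hK ε hε
  exact ⟨U, LieSubalgebra.lieSpan_mono (fun W hW => hW.1) hU, h1⟩

theorem jm_of_div (hS : SD0 m O G) (h : Dv δ) (hV : VDP δ) {W : Derivation ℂ O O}
    (hW : W ∈ clLie O) {A B : Derivation ℂ O O} (hA : IsVF A) (hB : IsVF B) :
    B (δ W) • A - A (δ W) • B ∈ Jm O := by
  have hc := hS.alg.cont
  intro u
  have hWv : IsVF W := hW.1
  set F : Derivation ℂ O O := u • (B (δ W) • A - A (δ W) • B) with hF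
  set V : Derivation ℂ O O := curl δ (u • A) B with hVdef
  have hVvf : IsVF V := curl_vf hc δ (hA.fsmul hc u) hB
  have hVd : δ V = 0 := curl_div hc h (hA.fsmul hc u) hB
  have hVL : V ∈ clLie O := div_zero_mem hV hVvf hVd
  have hFeq : F = (u * B (δ W)) • A - (u * A (δ W)) • B := by
    apply Derivation.ext
    intro f
    rw [hF, Derivation.smul_apply, Derivation.sub_apply, Derivation.sub_apply,
      Derivation.smul_apply, Derivation.smul_apply, Derivation.smul_apply, Derivation.smul_apply]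
    simp only [smul_eq_mul]
    ring
  have hFvf : IsVF F := by
    rw [hFeq]
    exact IsVF.sub' (hA.fsmul hc _) (hB.fsmul hc _)
  have hFd : δ F = V (δ W) := by
    rw [hFeq, h.sub (hA.fsmul hc _) (hB.fsmul hc _), h.fmul _ _ hA, h.fmul _ _ hB, hVdef,
      curl_smul h hA, curl_apply]
    simp only [Derivation.leibniz, smul_eq_mul]
    ring
  have hbr : ⁅V, W⁆ ∈ clLie O := clLie_lie hVL hW
  have hbrd : δ ⁅V, W⁆ = V (δ W) := by
    rw [h.lie _ _ hVvf hWv, hVd, map_zero, sub_zero]
  have h1 : F - ⁅V, W⁆ ∈ clLie O := by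
    refine div_zero_mem hV (IsVF.sub' hFvf hbr.1) ?_
    rw [h.sub hFvf hbr.1, hFd, hbrd, sub_self]
  have h2 : F = (F - ⁅V, W⁆) + ⁅V, W⁆ := by
    apply Derivation.ext
    intro f
    rw [Derivation.add_apply, Derivation.sub_apply, sub_add_cancel]
  rw [h2]
  exact clLie_add h1 hbr

/-- a field of the module which is not zero at a point gives a basis there -/
theorem jm_basis (hS : SD0 m O G) (h : Dv δ) (hV : VDP δ) {D : Derivation ℂ O O}
    (hD : D ∈ Jm O) {x : X} {f₀ : O} (hx : (D f₀) x ≠ 0) :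
    ∃ (u : Fin m → Derivation ℂ O O) (q : Fin m → O), (∀ i, u i ∈ Jm O) ∧
      ∀ i j, (u i (q j)) x = if i = j then 1 else 0 := by
  have hc := hS.alg.cont
  have hDv : IsVF D := (jm_mem hD).1
  obtain ⟨q, κ, V, hch, hVp, hκ⟩ := hS.charts x
  obtain ⟨E, hE1, hE2⟩ := exists_fields hS hch hVp
  rw [hκ] at hE2
  obtain ⟨j, hj⟩ : ∃ j, (D (q j)) x ≠ 0 := by
    by_contra hcon
    push Not at hcon
    refine hx ?_
    rw [value_at hch hVp hκ hE1 hE2 hDv f₀]
    exact Finset.sum_eq_zero fun j _ => by rw [hcon, zero_mul]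
  set p : O := q j - algebraMap ℂ O ((q j) x) with hp
  have hpx : p x = 0 := sub_self _
  have hFp : ∀ F : Derivation ℂ O O, F p = F (q j) := by
    intro F
    rw [hp, map_sub, Derivation.map_algebraMap, sub_zero]
  -- the brackets
  have hW : ∀ b, curl δ ((p * p) • E j) (E b) ∈ clLie O := fun b =>
    div_zero_mem hV (curl_vf hc δ ((hE1 _).fsmul hc _) (hE1 _))
      (curl_div hc h ((hE1 _).fsmul hc _) (hE1 _))
  set w : Fin m → Derivation ℂ O O := fun b => ⁅D, curl δ ((p * p) • E j) (E b)⁆ with hw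
  have hwJ : ∀ b, w b ∈ Jm O := fun b => jm_lie (hW b) hD
  have hwx : ∀ b, b ≠ j → ∀ l, (w b (q l)) x = 2 * (D (q j)) x * (if b = l then 1 else 0) := by
    intro b hb l
    have h1 : ∀ f : O, curl δ ((p * p) • E j) (E b) f =
        p * (p * curl δ (E j) (E b) f + 2 * E j (q j) * E b f - 2 * E b (q j) * E j f) := by
      intro f
      rw [curl_smul h (hE1 _)]
      simp only [Derivation.leibniz, smul_eq_mul, hFp]
      ring
    have h2 : w b (q l) = D (p * (p * curl δ (E j) (E b) (q l) + 2 * E j (q j) * E b (q l) -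
        2 * E b (q j) * E j (q l))) -
        p * (p * curl δ (E j) (E b) (D (q l)) + 2 * E j (q j) * E b (D (q l)) -
          2 * E b (q j) * E j (D (q l))) := by
      show ⁅D, curl δ ((p * p) • E j) (E b)⁆ (q l) = _
      rw [Derivation.commutator_apply, h1, h1]
    rw [h2, Derivation.leibniz]
    simp only [smul_eq_mul, hFp]
    have e1 : ∀ a b' : O, (p * a + b' * D (q j) - p * a) x = b' x * (D (q j)) x := by
      intro a b'
      show p x * a x + b' x * (D (q j)) x - p x * a x = _
      ring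
    show p x * _ + (p x * (curl δ (E j) (E b) (q l)) x + (2 : O) x * (E j (q j)) x * (E b (q l)) x -
      (2 : O) x * (E b (q j)) x * (E j (q l)) x) * (D (q j)) x - p x * _ = _
    have e2 : (2 : O) x = 2 := rfl
    rw [hpx, e2, hE2, hE2, hE2, if_pos rfl, if_neg hb]
    ring
  set d : ℂ := (D (q j)) x with hd
  set u : Fin m → Derivation ℂ O O := fun b => if b = j then
    d⁻¹ • (D - ∑ b ∈ Finset.univ.erase j, ((2 * d)⁻¹ * (D (q b)) x) • w b) else (2 * d)⁻¹ • w b
    with hu
  refine ⟨u, q, fun b => ?_, fun b l => ?_⟩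
  · by_cases hb : b = j
    · simp only [hu, if_pos hb]
      exact jm_csmul (jm_sub hD (jm_sum _ _ fun b _ => jm_csmul (hwJ b) _)) _
    · simp only [hu, if_neg hb]
      exact jm_csmul (hwJ b) _
  · have h2d : (2 * d) ≠ 0 := mul_ne_zero two_ne_zero hj
    by_cases hb : b = j
    · simp only [hu, if_pos hb]
      have h1 : ((d⁻¹ • (D - ∑ b ∈ Finset.univ.erase j, ((2 * d)⁻¹ * (D (q b)) x) • w b) :
          Derivation ℂ O O) (q l)) x = d⁻¹ * ((D (q l)) x -
            ∑ b ∈ Finset.univ.erase j, ((2 * d)⁻¹ * (D (q b)) x) * (w b (q l)) x) := by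
        have h3 := der_sum_apply' (Finset.univ.erase j)
          (fun b => ((2 * d)⁻¹ * (D (q b)) x) • w b) (q l) x
        have h4 : ∀ b, ((((2 * d)⁻¹ * (D (q b)) x) • w b : Derivation ℂ O O) (q l)) x =
            ((2 * d)⁻¹ * (D (q b)) x) * (w b (q l)) x := fun b => rfl
        simp only [h4] at h3
        rw [← h3]
        rfl
      rw [h1, hb]
      have h5 : ∑ b ∈ Finset.univ.erase j, ((2 * d)⁻¹ * (D (q b)) x) * (w b (q l)) x =
          ∑ b ∈ Finset.univ.erase j, (D (q b)) x * (if b = l then 1 else 0) := by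
        refine Finset.sum_congr rfl fun b hb' => ?_
        rw [hwx b (Finset.ne_of_mem_erase hb') l]
        field_simp
      rw [h5]
      by_cases hl : j = l
      · rw [if_pos hl, ← hl]
        have h6 : ∑ b ∈ Finset.univ.erase j, (D (q b)) x * (if b = j then (1 : ℂ) else 0) = 0 :=
          Finset.sum_eq_zero fun b hb' => by
            rw [if_neg (Finset.ne_of_mem_erase hb'), mul_zero]
        rw [h6, sub_zero]
        exact inv_mul_cancel₀ hj
      · rw [if_neg hl]
        have h6 : ∑ b ∈ Finset.univ.erase j, (D (q b)) x * (if b = l then (1 : ℂ) else 0) =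
            (D (q l)) x := by
          rw [Finset.sum_eq_single l]
          · rw [if_pos rfl, mul_one]
          · intro b _ hbl
            rw [if_neg hbl, mul_zero]
          · intro hl'
            exact absurd (Finset.mem_erase.mpr ⟨Ne.symm hl, Finset.mem_univ l⟩) hl'
        rw [h6, sub_self, mul_zero]
    · simp only [hu, if_neg hb]
      show (2 * d)⁻¹ * (w b (q l)) x = _
      rw [hwx b hb l, ← mul_assoc, inv_mul_cancel₀ h2d, one_mul]

end Pool.Agent.MP_fe3720.VV
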